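import Mathlib

/-!
# Conservative real Hénon maps with an invariant annulus free of periodic points

For every degree `d ≥ 2` and both signs `b = ± 1` there is a real polynomial `p` of degree `d`
such that the origin is the only periodic point of `f(x, y) = (p(x) - b y, x)`; so the open
annulus `ℝ² ∖ {0}` is an annular rotation domain of `f`.
-/

namespace Pool.Agent.Results.MP_8a808a_an.InvariantAnnulus

open Polynomial

/-- The generalised Hénon map `(x, y) ↦ (p(x) - b y, x)` of the plane. -/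
def henon (p : ℝ[X]) (b : ℝ) (v : ℝ × ℝ) : ℝ × ℝ := (p.eval v.1 - b * v.2, v.1)

/-- `A` is an annular rotation domain of the plane map `f`: an open set homeomorphic to the open
annulus `𝕊¹ × (0, 1)`, invariant under `f`, which contains no periodic point of `f`. -/
def IsAnnularRotationDomain (f : ℝ × ℝ → ℝ × ℝ) (A : Set (ℝ × ℝ)) : Prop :=
  IsOpen A ∧ Nonempty (A ≃ₜ Circle × Set.Ioo (0 : ℝ) 1) ∧ f '' A = A ∧
    ∀ x ∈ A, ∀ n : ℕ, 1 ≤ n → f^[n] x ≠ x

/-- telescoping over a period -/
lemma tele (g : ℕ → ℝ) (n : ℕ) (h : g n = g 0) : ∑ k ∈ Finset.range n, (g (k + 1) - g k) = 0 := by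
  rw [Finset.sum_range_sub, h, sub_self]

/-- A periodic orbit along which a sum of even powers vanishes is trivial. -/
lemma zero_of_sum {f : ℝ × ℝ → ℝ × ℝ} {v : ℝ × ℝ} {n : ℕ} (hn : 1 ≤ n) (hv : f^[n] v = v)
    (hf : ∀ w, (f w).2 = w.1) {e : ℕ} (he : Even e)
    (hs : ∑ k ∈ Finset.range n, ((f^[k] v).1) ^ e ≤ 0) : v = 0 := by
  have h0 : ∀ k ∈ Finset.range n, 0 ≤ ((f^[k] v).1) ^ e := fun k _ => he.pow_nonneg _
  have h1 := (Finset.sum_eq_zero_iff_of_nonneg h0).1 (le_antisymm hs (Finset.sum_nonneg h0))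
  have h2 : ∀ k ∈ Finset.range n, (f^[k] v).1 = 0 := fun k hk =>
    eq_zero_of_pow_eq_zero (h1 k hk)
  have h3 : v.1 = 0 := by simpa using h2 0 (by simp; omega)
  obtain ⟨m, rfl⟩ : ∃ m, n = m + 1 := ⟨n - 1, by omega⟩
  have h4 : v.2 = 0 := by
    rw [Function.iterate_succ_apply'] at hv
    rw [← hv, hf]
    exact h2 m (by simp)
  exact Prod.ext h3 h4

/-- The only periodic point is the origin, `b = 1`. -/
lemma periodic_one {d : ℕ} {v : ℝ × ℝ} {n : ℕ} (hn : 1 ≤ n)
    (hv : (henon (X ^ d + C 2 * X) 1)^[n] v = v) : v = 0 := by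
  set f := henon (X ^ d + C 2 * X) 1 with hf
  set a : ℕ → ℝ := fun k => (f^[k] v).1 with ha
  set c : ℕ → ℝ := fun k => (f^[k] v).2 with hc
  have hsuc : ∀ k, a (k + 1) = (a k) ^ d + 2 * a k - c k ∧ c (k + 1) = a k := by
    intro k
    simp only [ha, hc, Function.iterate_succ_apply', hf, henon]
    simp
  have han : a n = a 0 := by simp [ha, hv]
  have hcn : c n = c 0 := by simp [hc, hv]
  rcases Nat.even_or_odd d with hd | hd
  · refine zero_of_sum hn hv (fun w => rfl) hd (le_of_eq ?_)
    have e1 : ∀ k ∈ Finset.range n, ((f^[k] v).1) ^ d = (a (k + 1) - a k) - (c (k + 1) - c k) := by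
      intro k _
      change (a k) ^ d = _
      rw [(hsuc k).1, (hsuc k).2]; ring
    rw [Finset.sum_congr rfl e1, Finset.sum_sub_distrib, tele a n han, tele c n hcn, sub_zero]
  · refine zero_of_sum hn hv (fun w => rfl) (e := d + 1) (by simpa using hd.add_one) ?_
    have e1 : ∀ k ∈ Finset.range n, ((f^[k] v).1) ^ (d + 1) =
        (a (k + 1) ^ 2 - a k ^ 2) - (a (k + 1) - a k) ^ 2 - (a (k + 1) * c (k + 1) - a k * c k) := by
      intro k _
      change (a k) ^ (d + 1) = _
      have h1 := (hsuc k).1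
      have h2 : (a k) ^ (d + 1) = a k * a k ^ d := by ring
      have h3 : a k ^ d = a (k + 1) - 2 * a k + c k := by rw [h1]; ring
      rw [h2, h3, (hsuc k).2]; ring
    rw [Finset.sum_congr rfl e1, Finset.sum_sub_distrib, Finset.sum_sub_distrib,
      tele (fun k => a k ^ 2) n (by simp only [han]),
      tele (fun k => a k * c k) n (by simp only [han, hcn])]
    have h5 : 0 ≤ ∑ k ∈ Finset.range n, (a (k + 1) - a k) ^ 2 :=
      Finset.sum_nonneg (fun k _ => sq_nonneg _)
    linarith

/-- The only periodic point is the origin, `b = -1`. -/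
lemma periodic_neg {d : ℕ} {v : ℝ × ℝ} {n : ℕ} (hn : 1 ≤ n)
    (hv : (henon (X ^ d) (-1))^[n] v = v) : v = 0 := by
  set f := henon (X ^ d) (-1) with hf
  set a : ℕ → ℝ := fun k => (f^[k] v).1 with ha
  set c : ℕ → ℝ := fun k => (f^[k] v).2 with hc
  have hsuc : ∀ k, a (k + 1) = (a k) ^ d + c k ∧ c (k + 1) = a k := by
    intro k
    simp only [ha, hc, Function.iterate_succ_apply', hf, henon]
    simp
  have han : a n = a 0 := by simp [ha, hv]
  have hcn : c n = c 0 := by simp [hc, hv]
  rcases Nat.even_or_odd d with hd | hd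
  · refine zero_of_sum hn hv (fun w => rfl) hd (le_of_eq ?_)
    have e1 : ∀ k ∈ Finset.range n, ((f^[k] v).1) ^ d = (a (k + 1) - a k) + (c (k + 1) - c k) := by
      intro k _
      change (a k) ^ d = _
      rw [(hsuc k).1, (hsuc k).2]; ring
    rw [Finset.sum_congr rfl e1, Finset.sum_add_distrib, tele a n han, tele c n hcn, add_zero]
  · refine zero_of_sum hn hv (fun w => rfl) (e := d + 1) (by simpa using hd.add_one) (le_of_eq ?_)
    have e1 : ∀ k ∈ Finset.range n, ((f^[k] v).1) ^ (d + 1) =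
        (a (k + 1) * c (k + 1) - a k * c k) := by
      intro k _
      change (a k) ^ (d + 1) = _
      have h1 := (hsuc k).1
      have h2 : (a k) ^ (d + 1) = a k * a k ^ d := by ring
      have h3 : a k ^ d = a (k + 1) - c k := by rw [h1]; ring
      rw [h2, h3, (hsuc k).2]; ring
    rw [Finset.sum_congr rfl e1, tele (fun k => a k * c k) n (by simp only [han, hcn])]

/-- The half line is an interval. -/
noncomputable def halfLine : Set.Ioi (0 : ℝ) ≃ₜ Set.Ioo (0 : ℝ) 1 where
  toFun x := ⟨x.1 / (1 + x.1), by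
    have hx : (0 : ℝ) < x.1 := x.2
    constructor
    · positivity
    · rw [div_lt_one (by positivity)]; linarith⟩
  invFun y := ⟨y.1 / (1 - y.1), by
    have h1 : (0 : ℝ) < y.1 := y.2.1
    have h2 : y.1 < 1 := y.2.2
    exact div_pos h1 (by linarith)⟩
  left_inv x := by
    have hx : (0 : ℝ) < x.1 := x.2
    have h1 : (1 : ℝ) + x.1 ≠ 0 := by positivity
    apply Subtype.ext
    simp only
    have h2 : 1 - x.1 / (1 + x.1) = 1 / (1 + x.1) := by field_simp; ring
    rw [h2]
    field_simp
  right_inv y := by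
    have h1 : (0 : ℝ) < y.1 := y.2.1
    have h2 : y.1 < 1 := y.2.2
    have h3 : (1 : ℝ) - y.1 ≠ 0 := by linarith
    apply Subtype.ext
    simp only
    have h4 : 1 + y.1 / (1 - y.1) = 1 / (1 - y.1) := by field_simp; ring
    rw [h4]
    field_simp
  continuous_toFun := by
    refine Continuous.subtype_mk (Continuous.div (by fun_prop) (by fun_prop) ?_) _
    intro x
    have hx : (0 : ℝ) < x.1 := x.2
    positivity
  continuous_invFun := by
    refine Continuous.subtype_mk (Continuous.div (by fun_prop) (by fun_prop) ?_) _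
    intro y
    have h2 : y.1 < 1 := y.2.2
    linarith

/-- The punctured plane is an open annulus. -/
lemma annulus : Nonempty (({0}ᶜ : Set (ℝ × ℝ)) ≃ₜ Circle × Set.Ioo (0 : ℝ) 1) := by
  have e1 : ({0}ᶜ : Set (ℝ × ℝ)) ≃ₜ ({0}ᶜ : Set ℂ) :=
    Complex.equivRealProdCLM.symm.toHomeomorph.subtype (fun v => by simp)
  have e2 := homeomorphUnitSphereProd ℂ
  have e3 : Metric.sphere (0 : ℂ) 1 ≃ₜ Circle := Homeomorph.refl _
  exact ⟨e1.trans (e2.trans (e3.prodCongr halfLine))⟩

lemma image_compl {p : ℝ[X]} {b : ℝ} (hb : b ≠ 0) (hp : p.eval 0 = 0) :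
    henon p b '' ({0}ᶜ) = {0}ᶜ := by
  have hinj : Function.Injective (henon p b) := by
    rintro ⟨x, y⟩ ⟨x', y'⟩ h
    simp only [henon, Prod.mk.injEq] at h
    obtain ⟨h1, rfl⟩ := h
    have : b * y = b * y' := by linarith
    rw [mul_left_cancel₀ hb this]
  have hsurj : Function.Surjective (henon p b) := by
    rintro ⟨x, y⟩
    refine ⟨(y, (p.eval y - x) / b), ?_⟩
    simp only [henon, Prod.mk.injEq, and_true]
    field_simp
    ring
  have h0 : henon p b 0 = 0 := by simp [henon, hp]
  rw [Set.image_compl_eq ⟨hinj, hsurj⟩, Set.image_singleton, h0]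

/-- For every degree `d ≥ 2` and both signs `b = ± 1` there is a real polynomial `p` of degree
`d` such that the conservative Hénon map `(x, y) ↦ (p(x) - b y, x)` has an annular rotation
domain in the plane. -/
theorem result : ∀ d : ℕ, 2 ≤ d → ∀ b : ℝ, b = 1 ∨ b = -1 →
    ∃ p : ℝ[X], p.natDegree = d ∧ ∃ A : Set (ℝ × ℝ), IsAnnularRotationDomain (henon p b) A := by
  intro d hd b hb
  rcases hb with rfl | rfl
  · refine ⟨X ^ d + C 2 * X, ?_, {0}ᶜ, isOpen_compl_singleton, annulus,
      image_compl one_ne_zero (by simp; omega), ?_⟩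
    · rw [natDegree_add_eq_left_of_natDegree_lt]
      · simp
      · rw [natDegree_X_pow, natDegree_C_mul_X _ (by norm_num)]
        omega
    · intro x hx n hn h
      exact hx (periodic_one hn h)
  · refine ⟨X ^ d, by simp, {0}ᶜ, isOpen_compl_singleton, annulus,
      image_compl (by norm_num) (by simp; omega), ?_⟩
    intro x hx n hn h
    exact hx (periodic_neg hn h)

end Pool.Agent.Results.MP_8a808a_an.InvariantAnnulus
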